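import Pool.Graph.R_pool_sql_team_seeded_3997aac3.Results.MP_8487d8_lc.LowerBoundThree

/-!
# The lower bound 3 for non-adaptive prophet inequalities on complete bipartite graphs

The optimal worst-case ratio of non-adaptive algorithms is at least `3` already on complete
bipartite graphs with weights `X e` which take only the value `0` and one other value. The instances
are those of the library module `Pool.Graph.R_pool_sql_team_seeded_3997aac3.Q288.Prophet`.
-/

set_option autoImplicit false

open MeasureTheory ProbabilityTheory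
open scoped BigOperators ENNReal NNReal

namespace Pool.Agent.Results.MP_8487d8_lc.CompleteBipartiteThree

open Pool.Agent.Q288.Prophet Pool.Agent.Results.MP_8487d8_lc.LowerBoundThree

/-- The graph of the instance is complete bipartite. -/
def CompleteBipartite (I : Inst) : Prop :=
  ∃ col : I.V → Bool, (∀ e x y, I.ends e = s(x, y) → col x ≠ col y) ∧
    ∀ x y, col x ≠ col y → ∃ e, I.ends e = s(x, y)

/-- Every weight takes at most one value other than `0`. -/
def TwoValued (I : Inst) : Prop := ∀ e, ∃ w : ℝ, ∀ ω, I.X e ω = 0 ∨ I.X e ω = w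

/-- The optimal worst-case ratio of non-adaptive algorithms on the complete bipartite graphs with
two-valued weights. -/
noncomputable def rhoBip : ℝ≥0∞ :=
  ⨅ 𝒜 : (I : Inst) → Rule I, ⨆ (I : Inst) (_ : CompleteBipartite I ∧ TwoValued I),
    opt I / alg I (𝒜 I)

/-- **Lower bound 3 on complete bipartite graphs.** For every `c < 3` there is an instance on a
complete bipartite graph with two-valued weights on which every (randomised) non-adaptive algorithm
has `c · E[ALG] ≤ E[OPT]`; hence the optimal ratio on these instances is at least `3`. -/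
theorem result :
    (∀ c : ℝ≥0, c < 3 → ∃ I : Inst, CompleteBipartite I ∧ TwoValued I ∧ 0 < opt I ∧
      opt I ≠ ∞ ∧ ∀ R : Rule I, (c : ℝ≥0∞) * alg I R ≤ opt I) ∧
    3 ≤ rhoBip := by
  have main : ∀ c : ℝ≥0, c < 3 → ∃ I : Inst, CompleteBipartite I ∧ TwoValued I ∧ 0 < opt I ∧
      opt I ≠ ∞ ∧ ∀ R : Rule I, (c : ℝ≥0∞) * alg I R ≤ opt I := by
    intro c hc
    classical
    obtain ⟨N, m, p, ε, v, D, hp0, hp1, he0, he1, hv0, hD0, L, hL0, hpos, hcL, halg⟩ :=
      key_real c c.2 (by exact_mod_cast hc)
    have hprob := mu_prob (N := N) (m := m) hp0 hp1 he0.le he1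
    set l1 : List ((Fin N ⊕ Bool) × Fin m) :=
      (Finset.univ.filter (fun e : (Fin N ⊕ Bool) × Fin m => ∃ b, e.1 = Sum.inl b)).toList with hl1
    set l2 : List ((Fin N ⊕ Bool) × Fin m) :=
      (Finset.univ.filter (fun e : (Fin N ⊕ Bool) × Fin m => e.1 = Sum.inr false)).toList with hl2
    set l3 : List ((Fin N ⊕ Bool) × Fin m) :=
      (Finset.univ.filter (fun e : (Fin N ⊕ Bool) × Fin m => e.1 = Sum.inr true)).toList with hl3
    have m1 : ∀ e, e ∈ l1 ↔ ∃ b, e.1 = Sum.inl b := by
      intro e
      simp [hl1]
    have m2 : ∀ e, e ∈ l2 ↔ e.1 = Sum.inr false := by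
      intro e
      simp [hl2]
    have m3 : ∀ e, e ∈ l3 ↔ e.1 = Sum.inr true := by
      intro e
      simp [hl3]
    have hnodup : (l1 ++ l2 ++ l3).Nodup := by
      rw [List.nodup_append, List.nodup_append]
      refine ⟨⟨Finset.nodup_toList _, Finset.nodup_toList _, ?_⟩, Finset.nodup_toList _, ?_⟩
      · intro e he e' he' h
        subst h
        rw [m1] at he
        rw [m2] at he'
        obtain ⟨b, hb⟩ := he
        rw [hb] at he'
        simp at he'
      · intro e he e' he' h
        subst h
        rw [m3] at he'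
        rcases List.mem_append.1 he with he | he
        · rw [m1] at he
          obtain ⟨b, hb⟩ := he
          rw [hb] at he'
          simp at he'
        · rw [m2, he'] at he
          simp at he
    have hcomp : ∀ e, e ∈ l1 ++ l2 ++ l3 := by
      rintro ⟨y, a⟩
      rw [List.mem_append, List.mem_append, m1, m2, m3]
      rcases y with b | t
      · exact Or.inl (Or.inl ⟨b, rfl⟩)
      · cases t
        · exact Or.inl (Or.inr rfl)
        · exact Or.inr rfl
    have hint : ∀ g : ((Fin N ⊕ Bool) → Fin m → Bool) → ℝ, Integrable g (mu N m p ε) :=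
      fun g => Integrable.of_finite
    let I : Inst :=
      { V := Fin m ⊕ (Fin N ⊕ Bool)
        E := (Fin N ⊕ Bool) × Fin m
        finV := inferInstance
        finE := inferInstance
        ends := en N m
        ends_injective := en_inj
        ends_not_loop := en_loop
        order := l1 ++ l2 ++ l3
        order_nodup := hnodup
        order_complete := hcomp
        Ω := (Fin N ⊕ Bool) → Fin m → Bool
        mΩ := inferInstance
        μ := mu N m p ε
        prob := hprob
        X := fun e ω => xv N m v D ω e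
        X_measurable := fun e => measurable_of_finite _
        X_nonneg := fun e ω => xv_nonneg hv0 hD0 ω e
        X_integrable := fun e => hint _
        X_indep := xv_indep hp0 hp1 he0.le he1 }
    have hempty : IsForest (en N m) (∅ : Finset ((Fin N ⊕ Bool) × Fin m)) := by
      simp [IsForest, gr]
    have hopt : opt I = ENNReal.ofReal (∫ ω, maxForest (en N m) (xv N m v D ω) ∂mu N m p ε) := by
      rw [ofReal_integral_eq_lintegral_ofReal (hint _)]
      · rfl
      · refine Filter.Eventually.of_forall (fun ω => ?_)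
        have := le_maxForest (xv N m v D ω) hempty
        simpa using this
    refine ⟨I, ?_, ?_, ?_, ?_, ?_⟩
    · refine ⟨Sum.isLeft, ?_, ?_⟩
      · intro e x y h
        change s(Sum.inr e.1, Sum.inl e.2) = s(x, y) at h
        rcases Sym2.eq_iff.1 h with ⟨h1, h2⟩ | ⟨h1, h2⟩
        · subst h1; subst h2; simp
        · subst h1; subst h2; simp
      · intro x y h
        rcases x with x | x <;> rcases y with y | y
        · exact absurd rfl h
        · exact ⟨(y, x), Sym2.eq_swap⟩
        · exact ⟨(x, y), rfl⟩
        · exact absurd rfl h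
    · rintro ⟨y, a⟩
      rcases y with b | t
      · refine ⟨v, fun ω => ?_⟩
        change xv N m v D ω (Sum.inl b, a) = 0 ∨ xv N m v D ω (Sum.inl b, a) = v
        unfold xv
        simp only
        split_ifs <;> simp
      · cases t
        · refine ⟨1, fun ω => ?_⟩
          change xv N m v D ω (Sum.inr false, a) = 0 ∨ xv N m v D ω (Sum.inr false, a) = 1
          unfold xv
          simp
        · refine ⟨D, fun ω => ?_⟩
          change xv N m v D ω (Sum.inr true, a) = 0 ∨ xv N m v D ω (Sum.inr true, a) = D
          unfold xv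
          simp only
          split_ifs <;> simp
    · rw [hopt]
      exact ENNReal.ofReal_pos.2 hpos
    · rw [hopt]
      exact ENNReal.ofReal_ne_top
    · intro R
      have hRp := R.prob
      have h1 : alg I R ≤ ENNReal.ofReal L := by
        have h2 : ∀ T : ((Fin N ⊕ Bool) × Fin m) → WithTop ℝ,
            ∫⁻ ω, ENNReal.ofReal (algValue (en N m) (l1 ++ l2 ++ l3) T (xv N m v D ω))
              ∂mu N m p ε ≤ ENNReal.ofReal L := by
          intro T
          rw [← ofReal_integral_eq_lintegral_ofReal (hint _)]
          · exact ENNReal.ofReal_le_ofReal (halg l1 l2 l3 m1 m2 m3 T)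
          · refine Filter.Eventually.of_forall (fun ω => ?_)
            exact Finset.sum_nonneg (fun e _ => xv_nonneg hv0 hD0 ω e)
        let _ := R.mΘ
        calc alg I R ≤ ∫⁻ _, ENNReal.ofReal L ∂(R.P) := lintegral_mono (fun θ => h2 (R.T θ))
          _ = ENNReal.ofReal L := by
              rw [lintegral_const, measure_univ, mul_one]
      rw [hopt]
      calc (c : ℝ≥0∞) * alg I R ≤ (c : ℝ≥0∞) * ENNReal.ofReal L := by gcongr
        _ = ENNReal.ofReal (c * L) := by
            rw [ENNReal.ofReal_mul (NNReal.coe_nonneg c), ENNReal.ofReal_coe_nnreal]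
        _ ≤ _ := ENNReal.ofReal_le_ofReal hcL
  refine ⟨main, ?_⟩
  refine le_iInf (fun 𝒜 => ?_)
  refine le_of_forall_lt (fun d hd => ?_)
  have hdtop : d ≠ ∞ := ne_top_of_lt hd
  obtain ⟨c, rfl⟩ : ∃ c : ℝ≥0, (c : ℝ≥0∞) = d := ⟨d.toNNReal, ENNReal.coe_toNNReal hdtop⟩
  have hc3 : c < 3 := by exact_mod_cast hd
  obtain ⟨c', hcc', hc'3⟩ := exists_between hc3
  obtain ⟨I, hIb, hIt, hI0, hItop, hI⟩ := main c' hc'3
  have h1 : (c' : ℝ≥0∞) ≤ opt I / alg I (𝒜 I) := by
    rw [ENNReal.le_div_iff_mul_le (Or.inr hI0.ne') (Or.inr hItop)]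
    exact hI _
  calc (c : ℝ≥0∞) < c' := by exact_mod_cast hcc'
    _ ≤ opt I / alg I (𝒜 I) := h1
    _ ≤ ⨆ (I : Inst) (_ : CompleteBipartite I ∧ TwoValued I), opt I / alg I (𝒜 I) :=
        le_iSup₂ (f := fun (I : Inst) (_ : CompleteBipartite I ∧ TwoValued I) =>
          opt I / alg I (𝒜 I)) I ⟨hIb, hIt⟩

end Pool.Agent.Results.MP_8487d8_lc.CompleteBipartiteThree
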